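import Pool.Agent.helper14.AV.Spec

set_option autoImplicit false

namespace Pool.Agent.helper14.AV

theorem COM_ne {ι : Type} : ∀ (w : List (ι × Bool)), (w.map Prod.fst).Nodup →
    ∀ f ∈ edges w, f.1.1 ≠ f.2.1
  | [], _, f, hf => by simp [edges] at hf
  | [_], _, f, hf => by simp [edges] at hf
  | x :: y :: l, h, f, hf => by
    rw [edges, List.mem_cons] at hf
    rcases hf with rfl | hf
    · simp only [List.map_cons, List.nodup_cons, List.mem_cons] at h
      exact fun h1 => h.1 (Or.inl h1)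
    · exact COM_ne (y :: l) (by rw [List.map_cons, List.nodup_cons] at h; exact h.2) f hf

theorem COM {ι V : Type} (A B : ι → ℝ × ℝ) (T : SimpleGraph V) (e : ι → Sym2 V)
    (anc : V → Finset ι) (τ : V → ι → Bool) (hS : Setup A B T e anc τ) (hLMZ : LMZ_stmt)
    (w : List (ι × Bool)) (hw : (w.map Prod.fst).Nodup)
    (hc : ∀ f ∈ edges w, ∃ c', c' ∈ e f.1.1 ∧ c' ∈ e f.2.1) :
    ∀ f ∈ edges w, ∀ j,
      Disjoint (openSegment ℝ (fn A B f.1) (st A B f.2)) (segment ℝ (A j) (B j)) := by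
  obtain ⟨_, _, _, _, hinc, hsep, _⟩ := hS
  intro f hf j
  obtain ⟨c, h1, h2⟩ := hc f hf
  obtain ⟨u, hu, huj⟩ := hsep c j
  refine hLMZ ι A B u j (sg (τ c u)) f.1 f.2 (COM_ne w hw f hf) ?_ ?_ huj
  · intro h
    have h3 := (hinc _ _ h1).2 u hu (Ne.symm h)
    unfold fn
    split_ifs
    · exact h3.2
    · exact h3.1
  · intro h
    have h3 := (hinc _ _ h2).2 u hu (Ne.symm h)
    unfold st
    split_ifs
    · exact h3.1
    · exact h3.2

theorem RES0 (hSGN : SGN_stmt) (hLMZ : LMZ_stmt) (hSET : SET_stmt) (hPTH : PTH_stmt)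
    (hFNL : FNL_stmt) (n : ℕ) (A B : Fin n → ℝ × ℝ) (hne : ∀ i, A i ≠ B i)
    (hns : ∀ i j, i ≠ j → Disjoint
      ((affineSpan ℝ {A i, B i} : AffineSubspace ℝ (ℝ × ℝ)) : Set (ℝ × ℝ))
      (segment ℝ (A j) (B j))) (k : ℕ)
    (hk : ∀ (V : Type) [Fintype V] (T : SimpleGraph V), T.IsTree → Fintype.card V = n + 1 →
      HasCaterpillar T k) : CompatiblePath A B k := by
  obtain ⟨V, hV, T, e, anc, τ, hcard, hS⟩ := hSET (Fin n) A B hne
    (fun i j hij => hSGN _ _ _ _ (hne i) (hns i j hij))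
  rw [Fintype.card_fin] at hcard
  obtain ⟨w, h1, h2, h3, h4⟩ := hPTH (Fin n) V A B T e anc τ k hS (hk V T hS.1 hcard)
  refine hFNL n A B w k h1 h2 hne ?_ (COM A B T e anc τ hS hLMZ w h2 h3) h4
  intro i j hij
  refine Set.disjoint_of_subset_left ?_ (hns i j hij)
  rw [segment_eq_image_lineMap]
  rintro x ⟨t, _, rfl⟩
  exact AffineMap.lineMap_mem_affineSpan_pair t _ _

end Pool.Agent.helper14.AV
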