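import Pool.Agent.helper14.AV.Fin0
import Pool.Agent.helper53.AV.SGN
import Pool.Agent.helper33.AV.HPL
import Pool.Agent.helper90.AV.AMX
import Pool.Agent.helper78.AV.STP
import Pool.Agent.helper12.AV.ICP
import Pool.Agent.helper75.AV.ICA
import Pool.Agent.helper99.AV.LMX
import Pool.Agent.helper23.AV.LMZ
import Pool.Agent.helper58.AV.JOI
import Pool.Agent.helper66.AV.BSU
import Pool.Agent.helper31.AV.SET
import Pool.Agent.helper13.AV.EAP
import Pool.Agent.helper2.AV.EIN
import Pool.Agent.helper85.AV.TRU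
import Pool.Agent.helper48.AV.GLB
import Pool.Agent.helper29.AV.PTH
import Pool.Agent.helper8.AV.FNL

set_option autoImplicit false

namespace Pool.Agent.helper14.AV

/-- the theorem for families in which no segment meets the line of another one -/
theorem RES (n : ℕ) (A B : Fin n → ℝ × ℝ) (hne : ∀ i, A i ≠ B i)
    (hns : ∀ i j, i ≠ j → Disjoint
      ((affineSpan ℝ {A i, B i} : AffineSubspace ℝ (ℝ × ℝ)) : Set (ℝ × ℝ))
      (segment ℝ (A j) (B j))) (k : ℕ)
    (hk : ∀ (V : Type) [Fintype V] (T : SimpleGraph V), T.IsTree → Fintype.card V = n + 1 →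
      HasCaterpillar T k) : CompatiblePath A B k :=
  RES0 SGN LMZ (SET (BSU JOI)) (PTH (GLB (ICA (ICP (STP AMX) HPL)) LMX EAP TRU) TRU) (FNL EIN)
    n A B hne hns k hk

end Pool.Agent.helper14.AV
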