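import Pool.Agent.helper14.AV.Spec4

set_option autoImplicit false

namespace Pool.Agent.helper14.AV

open Classical in
theorem NCU_aux (ι : Type) [DecidableEq ι] (A B : ι → ℝ × ℝ) (h : NSd A B) :
    ∀ (m : ℕ) (W U : Finset ι), U.card = m → Cuttable A B W U := by
  intro m
  induction m using Nat.strong_induction_on with
  | _ m ih =>
    intro W U hm
    rcases U.eq_empty_or_nonempty with rfl | ⟨v, hv⟩
    · exact Cuttable.nil W
    · have hlt : ∀ s : Finset ι, (∀ j ∈ s, j ∈ U ∧ j ≠ v) → s.card < m := by
        intro s hs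
        rw [← hm]
        refine Finset.card_lt_card ((Finset.ssubset_iff_of_subset fun j hj => (hs j hj).1).2
          ⟨v, hv, fun h1 => (hs v h1).2 rfl⟩)
      refine Cuttable.cut W U (insert v (W.filter fun j => 0 < D (A v) (B v) (A j)))
        (U.filter fun j => j ≠ v ∧ 0 < D (A v) (B v) (A j))
        (insert v (W.filter fun j => D (A v) (B v) (A j) < 0))
        (U.filter fun j => j ≠ v ∧ D (A v) (B v) (A j) < 0) v hv ?_ ?_ ?_ ?_ ?_ ?_ ?_
      · intro j _ hj
        exact h v j (Ne.symm hj)
      · intro j
        rw [Finset.mem_insert, Finset.mem_filter]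
      · intro j
        rw [Finset.mem_insert, Finset.mem_filter]
      · intro j
        rw [Finset.mem_filter]
      · intro j
        rw [Finset.mem_filter]
      · refine ih _ (hlt _ ?_) _ _ rfl
        intro j hj
        rw [Finset.mem_filter] at hj
        exact ⟨hj.1, hj.2.1⟩
      · refine ih _ (hlt _ ?_) _ _ rfl
        intro j hj
        rw [Finset.mem_filter] at hj
        exact ⟨hj.1, hj.2.1⟩

theorem NCU : NCU_stmt := fun ι _ A B h W U _ => NCU_aux ι A B h _ W U rfl

end Pool.Agent.helper14.AV
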