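import Pool.Agent.helper14.AV.Spec3

set_option autoImplicit false

namespace Pool.Agent.helper14.AV

/-- The region whose boundary contains the segments of `W` and whose interior contains the segments of `U` can be cut
into cells by the lines of the segments of `U`, one after another, without meeting a segment: choose `v ∈ U` whose
line has every other segment of `W` and `U` strictly on one side, and go on with both sides of this line (on which
`v` is now a boundary segment). -/
inductive Cuttable {ι : Type} [DecidableEq ι] (A B : ι → ℝ × ℝ) : Finset ι → Finset ι → Prop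
  | nil (W : Finset ι) : Cuttable A B W ∅
  | cut (W U WL UL WR UR : Finset ι) (v : ι) (hv : v ∈ U)
      (hD : ∀ j, j ∈ W ∨ j ∈ U → j ≠ v → 0 < D (A v) (B v) (A j) * D (A v) (B v) (B j))
      (hWL : ∀ j, j ∈ WL ↔ j = v ∨ (j ∈ W ∧ 0 < D (A v) (B v) (A j)))
      (hWR : ∀ j, j ∈ WR ↔ j = v ∨ (j ∈ W ∧ D (A v) (B v) (A j) < 0))
      (hUL : ∀ j, j ∈ UL ↔ j ∈ U ∧ j ≠ v ∧ 0 < D (A v) (B v) (A j))
      (hUR : ∀ j, j ∈ UR ↔ j ∈ U ∧ j ≠ v ∧ D (A v) (B v) (A j) < 0)
      (hL : Cuttable A B WL UL) (hR : Cuttable A B WR UR) : Cuttable A B W U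

/-- the cells of a region, see BSC -/
def Part2 {ι : Type} [DecidableEq ι] (A B : ι → ℝ × ℝ) (W U : Finset ι) : Prop :=
  ∃ (V : Type) (_ : Fintype V) (T : SimpleGraph V) (e : ι → Sym2 V) (anc : V → Finset ι)
    (τ : V → ι → Bool) (loc : ι → V),
    T.Connected ∧ Fintype.card V = U.card + 1 ∧ Set.InjOn e (U : Set ι) ∧
    e '' (U : Set ι) = T.edgeSet ∧ (∀ c, anc c ⊆ U) ∧
    (∀ i ∈ U, ∀ c, c ∈ e i → i ∈ anc c ∧ ∀ u ∈ anc c, u ≠ i →
      0 < sg (τ c u) * D (A u) (B u) (A i) ∧ 0 < sg (τ c u) * D (A u) (B u) (B i)) ∧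
    (∀ c, ∀ j ∈ U, ∃ u ∈ anc c, u = j ∨
      (sg (τ c u) * D (A u) (B u) (A j) < 0 ∧ sg (τ c u) * D (A u) (B u) (B j) < 0)) ∧
    (∀ c c', c ≠ c' → ∃ u ∈ anc c, u ∈ anc c' ∧ τ c u ≠ τ c' u) ∧
    (∀ x ∈ W, ∀ u ∈ anc (loc x),
      0 < sg (τ (loc x) u) * D (A u) (B u) (A x) ∧ 0 < sg (τ (loc x) u) * D (A u) (B u) (B x))

/-- BSC (medium; the same proof as BSU, file Pool/Agent/helper66/AV/BSU.lean).  Proof.  Induction on the derivation.
`nil`: `V = Unit`, `T = ⊥`, `anc = ∅`.  `cut`: data `L` for `WL, UL` and `R` for `WR, UR` (`v ∈ WL`, `v ∈ WR`).  `V = VL ⊕ VR`,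
`T` from JOI with `a = locL v`, `b = locR v`; `e i = (eL i).map inl` for `i ∈ UL`, `(eR i).map inr` for `i ∈ UR`,
`e v = s(inl (locL v), inr (locR v))`; `U = UL ∪ UR ∪ {v}` (for `j ∈ U`, `j ≠ v` the number `D (A v) (B v) (A j)` is not 0 by
`hD`).  `anc (inl c) = insert v (ancL c)`, `τ (inl c) u = if u = v then true else τL c u`; `inr`: with `false`.
`loc x = if 0 < D (A v) (B v) (A x) then inl (locL x) else inr (locR x)`.  By `hD` the signs at `A j` and at `B j` agree.
The incidence clause for `i = v` is the last clause of `L` (`R`) for `v ∈ WL` (`v ∈ WR`). -/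
def BSC_stmt : Prop := ∀ (ι : Type) [DecidableEq ι] (A B : ι → ℝ × ℝ) (W U : Finset ι),
  Disjoint W U → Cuttable A B W U → Part2 A B W U

/-- SE2 (short; as SET, file Pool/Agent/helper31/AV/SET.lean). -/
def SE2_stmt : Prop := ∀ (ι : Type) [Fintype ι] [DecidableEq ι] (A B : ι → ℝ × ℝ),
  (∀ i, A i ≠ B i) → Cuttable A B ∅ Finset.univ →
  ∃ (V : Type) (_ : Fintype V) (T : SimpleGraph V) (e : ι → Sym2 V) (anc : V → Finset ι)
    (τ : V → ι → Bool), Fintype.card V = Fintype.card ι + 1 ∧ Setup A B T e anc τ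

/-- NCU (short).  If no segment meets the line of another one, every region is cuttable.
Proof.  Strong induction on `U.card`; any `v ∈ U`; the four sets by `Finset.filter` and `insert`. -/
def NCU_stmt : Prop := ∀ (ι : Type) [DecidableEq ι] (A B : ι → ℝ × ℝ), NSd A B →
  ∀ W U : Finset ι, Disjoint W U → Cuttable A B W U

/-- DSJ (short).  The segments of a cuttable family are pairwise disjoint.
Proof.  Prove by induction on the derivation: any two different members `i, j` of `U`, or one of `U` and one of `W`, are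
disjoint.  If one of them is `v`, the other one is strictly on one side of its line.  If both are strictly on different
sides of the line of `v`: disjoint.  Otherwise the induction hypothesis for `L` or `R`.  (`W`, `U` disjoint.) -/
def DSJ_stmt : Prop := ∀ (ι : Type) [DecidableEq ι] (A B : ι → ℝ × ℝ) (W U : Finset ι),
  Cuttable A B W U → ∀ i ∈ U, ∀ j, (j ∈ U ∨ j ∈ W) → i ≠ j →
  Disjoint (segment ℝ (A i) (B i)) (segment ℝ (A j) (B j))

end Pool.Agent.helper14.AV
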