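import Pool.Agent.helper14.AV.Final
import Pool.Agent.helper14.AV.Spec4
import Pool.Agent.helper54.AV.CVA
import Pool.Agent.helper46.AV.CVS
import Pool.Agent.helper71.AV.SDD
import Pool.Agent.helper99.AV.COL
import Pool.Agent.helper40.AV.TRI
import Pool.Agent.helper43.AV.CRS
import Pool.Agent.helper63.AV.TRG
import Pool.Agent.helper54.AV.CVB
import Pool.Agent.helper58.AV.DS4
import Pool.Agent.helper23.AV.DS3
import Pool.Agent.helper90.AV.SG1
import Pool.Agent.helper22.AV.SPA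
import Pool.Agent.helper64.AV.SPB
import Pool.Agent.helper98.AV.TRS
import Pool.Agent.helper66.AV.SWP
import Pool.Agent.helper24.AV.PRO
import Pool.Agent.helper54.AV.BSC
import Pool.Agent.helper59.AV.SE2
import Pool.Agent.helper3.AV.DSJ
import Pool.Agent.helper14.AV.NCU

set_option autoImplicit false

namespace Pool.Agent.helper14.AV

/-- (1) cuttable families -/
theorem RES1 (n : ℕ) (A B : Fin n → ℝ × ℝ) (hne : ∀ i, A i ≠ B i)
    (hcut : Cuttable A B ∅ Finset.univ) (k : ℕ)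
    (hk : ∀ (V : Type) [Fintype V] (T : SimpleGraph V), T.IsTree → Fintype.card V = n + 1 →
      HasCaterpillar T k) : CompatiblePath A B k := by
  obtain ⟨V, hV, T, e, anc, τ, hcard, hS⟩ := SE2 (BSC JOI) (Fin n) A B hne hcut
  rw [Fintype.card_fin] at hcard
  obtain ⟨w, h1, h2, h3, h4⟩ := PTH (GLB (ICA (ICP (STP AMX) HPL)) LMX EAP TRU) TRU (Fin n) V A B
    T e anc τ k hS (hk V T hS.1 hcard)
  refine FNL EIN n A B w k h1 h2 hne ?_ (COM A B T e anc τ hS LMZ w h2 h3) h4
  intro i j hij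
  exact DSJ (Fin n) A B ∅ Finset.univ hcut i (Finset.mem_univ i) j (Or.inl (Finset.mem_univ j)) hij

/-- (2) no line of a segment meets another segment: cuttable -/
theorem RES2 (n : ℕ) (A B : Fin n → ℝ × ℝ) (hne : ∀ i, A i ≠ B i)
    (hns : ∀ i j, i ≠ j → Disjoint
      ((affineSpan ℝ {A i, B i} : AffineSubspace ℝ (ℝ × ℝ)) : Set (ℝ × ℝ))
      (segment ℝ (A j) (B j))) : Cuttable A B ∅ Finset.univ :=
  NCU (Fin n) A B (fun i j hij => SGN _ _ _ _ (hne i) (hns i j hij)) ∅ Finset.univ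
    (Finset.disjoint_empty_left _)

/-- (3) convex position -/
theorem RES3 : CVS_stmt := CVS CVA

/-- (4) shortening -/
theorem RES4 : PRO_stmt :=
  PRO (TRS (CVS CVA) SGN SPB (CVB CVA) (SG1 SDD) (DS4 SDD (TRG (TRI COL)) CRS)
    (DS3 SDD (TRG (TRI COL)) CRS) SPA) SWP

end Pool.Agent.helper14.AV
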