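import Mathlib

/-!
# Compatible alternating paths through segments none of which is stabbed by the line of another one

Project AV (MP_801ee0_co).  Points are elements of `ℝ × ℝ`, `D a b c` is the orientation determinant.
A term `x : ι × Bool` is a directed segment: `(i, true)` runs from `A i` to `B i`, `(i, false)` from
`B i` to `A i`; `st` is its first, `fn` its last point.
-/

set_option autoImplicit false

namespace Pool.Agent.helper14.AV

/-- orientation determinant -/
def D (a b c : ℝ × ℝ) : ℝ := (b.1 - a.1) * (c.2 - a.2) - (b.2 - a.2) * (c.1 - a.1)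

/-- first point of a directed segment -/
def st {ι : Type} (A B : ι → ℝ × ℝ) (x : ι × Bool) : ℝ × ℝ := if x.2 then A x.1 else B x.1

/-- last point of a directed segment -/
def fn {ι : Type} (A B : ι → ℝ × ℝ) (x : ι × Bool) : ℝ × ℝ := if x.2 then B x.1 else A x.1

/-- the connecting edge of two consecutive directed segments -/
def Eg {ι : Type} (A B : ι → ℝ × ℝ) (e : (ι × Bool) × (ι × Bool)) : Set (ℝ × ℝ) :=
  segment ℝ (fn A B e.1) (st A B e.2)

/-- the list of consecutive pairs -/
def edges {α : Type} : List α → List (α × α)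
  | [] => []
  | [_] => []
  | x :: y :: l => (x, y) :: edges (y :: l)

/-- the sign of a Boolean -/
def sg (b : Bool) : ℝ := if b then 1 else -1

/-- all connecting edges of the list are pairwise disjoint (as closed segments) -/
def PD {ι : Type} (A B : ι → ℝ × ℝ) (w : List (ι × Bool)) : Prop :=
  (edges w).Pairwise fun e f => Disjoint (Eg A B e) (Eg A B f)

/-- every line of a directed segment `P i, Q i` of `I` has all other segments of `I` on its left -/
def Cvx {ι : Type} (P Q : ι → ℝ × ℝ) (I : Finset ι) : Prop :=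
  ∀ i ∈ I, ∀ j ∈ I, i ≠ j → 0 < D (P i) (Q i) (P j) ∧ 0 < D (P i) (Q i) (Q j)

/-! ### geometry -/

/-- SGN (short).  Proof.  `D (A i) (B i)` is affine in the last argument and vanishes exactly on the line
through `A i, B i` (`A i ≠ B i`): if `D a b x = 0`, `a ≠ b`, then `x = a + t (b - a)` with
`t = ((x-a)·(b-a)) / |b-a|^2` (coordinates), a member of `affineSpan ℝ {a, b}`
(`AffineMap.lineMap_mem_affineSpan_pair`).  If the values at `A j`, `B j` had product `≤ 0`, some point
`A j + s (B j - A j)`, `s ∈ [0,1]`, would have the value 0 and would be on the line and on the segment. -/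
def SGN_stmt : Prop := ∀ (a b c d : ℝ × ℝ), a ≠ b →
  Disjoint ((affineSpan ℝ {a, b} : AffineSubspace ℝ (ℝ × ℝ)) : Set (ℝ × ℝ)) (segment ℝ c d) →
  0 < D a b c * D a b d

/-- HPL (short).  `D p X` is affine in the last argument and 0 on `segment p X`, positive times `ε` on
`segment a b`. -/
def HPL_stmt : Prop := ∀ (p X a b : ℝ × ℝ) (ε : ℝ), 0 < ε * D p X a → 0 < ε * D p X b →
  Disjoint (segment ℝ p X) (segment ℝ a b)

/-- AMX (short).  Angular extremes.  `p, r` and a finite nonempty set `Z` of points with `0 < D p r z`,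
such that `D p z z' ≠ 0` for different `z, z' ∈ Z`; then there is `X ∈ Z` with `0 < D p X z` for all other
`z ∈ Z` and `Y ∈ Z` with `D p Y z < 0` for all other `z`.
Proof.  With `u = r - p`, `a = z - p`, `b = z' - p`, `g(z) = a·u`, `h(z) = D p r z = u × a > 0`:
`|u|^2 (a × b) = g(z) h(z') - g(z') h(z)` (`ring`), so `D p z z' > 0` iff `g(z)/h(z) > g(z')/h(z')`
(`≥` together with `D ≠ 0`).  `X` = maximum, `Y` = minimum of `g/h` (`Finset.exists_max_image`). -/
def AMX_stmt : Prop := ∀ (Z : Finset (ℝ × ℝ)) (p r : ℝ × ℝ), Z.Nonempty → (∀ z ∈ Z, 0 < D p r z) →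
  (∀ z ∈ Z, ∀ z' ∈ Z, z ≠ z' → D p z z' ≠ 0) →
  (∃ X ∈ Z, ∀ z ∈ Z, z ≠ X → 0 < D p X z) ∧ (∃ Y ∈ Z, ∀ z ∈ Z, z ≠ Y → D p Y z < 0)

/-- STP (medium).  A first step of the sweep from `p` which avoids the segment `t`.
Proof.  `Z` = the points `P j, Q j` (`j ∈ L`).  They are all different: `P j ≠ Q j` since
`0 < D (P j) (Q j) p`; points of different segments: `0 < D (P i) (Q i) (P j)` etc., and
`D a b a = D a b b = 0`.  `D p z z' ≠ 0` for different `z, z' ∈ Z`: if `z, z'` belong to the same `j`, then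
`D p (P j) (Q j) = D (P j) (Q j) p > 0`.  If `z` belongs to `i`, `z'` to `j ≠ i` and `D p z z' = 0`: `z, z'`
are on one ray from `p` (both have `0 < D p r`), say `z = p + s (z' - p)`, `0 < s`, and `s ≤ 1` or
`z' = p + s' (z - p)`, `0 < s' ≤ 1`.  In the first case `D (P i) (Q i) z` is a convex combination of
`D (P i) (Q i) p > 0` and `D (P i) (Q i) z' > 0`, but it is 0.  The second case is symmetric.
AMX gives `X` (of `h1`) and `Y` (of `h2`).  If `h1 ≠ t` take `h = h1`, `ε = 1`; if `h2 ≠ t` take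
`h = h2`, `ε = -1`.  Otherwise `X, Y ∈ {P t, Q t}`.  There is `j ∈ L`, `j ≠ t`; `z = P j`.  `X ≠ Y` (`0 < D p X z`,
`D p Y z < 0`).  If `X = Q t`, `Y = P t`: `0 < D p X Y = - D (P t) (Q t) p`, false.  If `X = P t`, `Y = Q t`:
`D p X Y > 0`, `D p X z > 0`, `D p z Y > 0` (`= - D p Y z`), `D X Y z > 0`, and
`D p X Y • z = D X Y z • p + D p z Y • X + D p X z • Y` (barycentric coordinates, sum `D p X Y`; coordinates,
`ring`), so `D p X Y * D (P j) (Q j) z` is a sum of positive terms; but `z = P j` gives 0. -/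
def STP_stmt : Prop := ∀ (ι : Type) [DecidableEq ι] (P Q : ι → ℝ × ℝ) (L : Finset ι)
  (p r : ℝ × ℝ) (t : ι), t ∈ L → 2 ≤ L.card → Cvx P Q L → (∀ i ∈ L, 0 < D (P i) (Q i) p) →
  (∀ j ∈ L, 0 < D p r (P j) ∧ 0 < D p r (Q j)) →
  ∃ h ∈ L, h ≠ t ∧ ∃ b : Bool, ∃ ε : ℝ,
    0 < ε * D p (st P Q (h, b)) (fn P Q (h, b)) ∧
    ∀ j ∈ L, j ≠ h → 0 < ε * D p (st P Q (h, b)) (P j) ∧ 0 < ε * D p (st P Q (h, b)) (Q j)

/-- ICP (medium).  The sweep in a cell: a list of directed segments which starts with `x`, contains every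
member of `L` once, ends with `t`, and has pairwise disjoint connecting edges.
Proof.  Induction on `L.card`.  `L = {t}`: `w = []`.  Otherwise `p = fn P Q x`; STP with `r` such that `D p r z =
D (P i) (Q i) z` for all `z` (`i = x.1`): if `p = P i` take `r = Q i`, if `p = Q i` take `r = 2 Q i - P i`.
`y = (h, b)`, `L' = L.erase h`, induction with `y, L', t` gives `w'`, `b'`; `w = y :: w'`.
`edges (x :: y :: ..) = (x, y) :: edges (y :: w' ++ [(t, b')])`; a pair `(u, v)` of the latter has `fn u`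
equal to `fn y` or to `P j` or `Q j` with `j ∈ L'`, and `st v` equal to `P j` or `Q j` with `j ∈ L'` (a small
lemma on `edges`: `u` is in the list, `v` is in the tail), so HPL applies. -/
def ICP_stmt : Prop := ∀ (ι : Type) [DecidableEq ι] (P Q : ι → ℝ × ℝ) (L : Finset ι)
  (x : ι × Bool) (t : ι), x.1 ∉ L → t ∈ L → Cvx P Q (insert x.1 L) →
  ∃ (w : List (ι × Bool)) (b : Bool), ((w ++ [(t, b)]).map Prod.fst).Nodup ∧
    (∀ i, i ∈ (w ++ [(t, b)]).map Prod.fst ↔ i ∈ L) ∧ PD P Q (x :: (w ++ [(t, b)]))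

/-- ICA (short).  The same with signs.
Proof.  ICP with `P i = if τ i then A i else B i`, `Q i = if τ i then B i else A i`, `L = I.erase x.1`, the
start `(x.1, x.2 == τ x.1)`; a term `(i, b)` for `P, Q` is the term `(i, b == τ i)` for `A, B`:
`st P Q (i, b) = st A B (i, b == τ i)`, the same for `fn`.  `D b a z = - D a b z`. -/
def ICA_stmt : Prop := ∀ (ι : Type) [DecidableEq ι] (A B : ι → ℝ × ℝ) (τ : ι → Bool)
  (I : Finset ι), (∀ i ∈ I, ∀ j ∈ I, i ≠ j →
    0 < sg (τ i) * D (A i) (B i) (A j) ∧ 0 < sg (τ i) * D (A i) (B i) (B j)) →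
  ∀ x : ι × Bool, x.1 ∈ I → ∀ t ∈ I, t ≠ x.1 →
  ∃ (w : List (ι × Bool)) (b : Bool), ((x :: (w ++ [(t, b)])).map Prod.fst).Nodup ∧
    (∀ i, i ∈ (x :: (w ++ [(t, b)])).map Prod.fst ↔ i ∈ I) ∧ PD A B (x :: (w ++ [(t, b)]))

/-- LMX (short to medium).  Connecting edges on different sides of the line of `u` are disjoint.
Proof.  Let `z` be in both, `F z = s * D (A u) (B u) z`, affine in `z`.  On the first edge `F` is a convex
combination of `F (fn x)` and `F (st y)`, which are positive, or 0 if the segment is `u`, and not both are `u`;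
on the second edge the values are negative or 0.  So `F z = 0`, and `z = fn x` with `x.1 = u`, or `z = st y` with
`y.1 = u`; and `z = fn x'` with `x'.1 = u`, or `z = st y'` with `y'.1 = u`.  Only `y.1 = u = x'.1` is possible,
then `y = x'` and `z = st y = fn y`, but `A u ≠ B u`. -/
def LMX_stmt : Prop := ∀ (ι : Type) (A B : ι → ℝ × ℝ) (u : ι) (s : ℝ) (x y x' y' : ι × Bool),
  A u ≠ B u → x.1 ≠ y.1 → x'.1 ≠ y'.1 → x.1 ≠ x'.1 → x.1 ≠ y'.1 → y.1 ≠ y'.1 → (y.1 = x'.1 → y = x') →
  (x.1 ≠ u → 0 < s * D (A u) (B u) (fn A B x)) → (y.1 ≠ u → 0 < s * D (A u) (B u) (st A B y)) →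
  (x'.1 ≠ u → s * D (A u) (B u) (fn A B x') < 0) → (y'.1 ≠ u → s * D (A u) (B u) (st A B y') < 0) →
  Disjoint (Eg A B (x, y)) (Eg A B (x', y'))

/-- LMZ (short).  Proof.  `F = s * D (A u) (B u)` is positive on the open segment (one of the two ends has a
positive value, the other one a value `≥ 0`), and `≤ 0` on `segment (A j) (B j)` (0 if `j = u`). -/
def LMZ_stmt : Prop := ∀ (ι : Type) (A B : ι → ℝ × ℝ) (u j : ι) (s : ℝ) (x y : ι × Bool),
  x.1 ≠ y.1 →
  (x.1 ≠ u → 0 < s * D (A u) (B u) (fn A B x)) → (y.1 ≠ u → 0 < s * D (A u) (B u) (st A B y)) →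
  (u = j ∨ (s * D (A u) (B u) (A j) < 0 ∧ s * D (A u) (B u) (B j) < 0)) →
  Disjoint (openSegment ℝ (fn A B x) (st A B y)) (segment ℝ (A j) (B j))

/-! ### the tree of cells -/

/-- the partition into cells by the segments of `U` (see BSU); `e i` = the two cells at the segment `i`,
`anc c` = the segments whose lines were used to cut out the cell `c`, `τ c u` = the side of the line of `u`
on which `c` is, `loc x` = the cell which contains the segment `x ∉ U` -/
def Part (ι : Type) (side : ι → ι → Bool) (U : Finset ι) : Prop :=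
  ∃ (V : Type) (_ : Fintype V) (T : SimpleGraph V) (e : ι → Sym2 V) (anc : V → Finset ι)
    (τ : V → ι → Bool) (loc : ι → V),
    T.Connected ∧ Fintype.card V = U.card + 1 ∧ Set.InjOn e (U : Set ι) ∧
    e '' (U : Set ι) = T.edgeSet ∧ (∀ c, anc c ⊆ U) ∧
    (∀ i ∈ U, ∀ c, c ∈ e i → i ∈ anc c ∧ ∀ u ∈ anc c, u ≠ i → side u i = τ c u) ∧
    (∀ c, ∀ j ∈ U, ∃ u ∈ anc c, u = j ∨ side u j ≠ τ c u) ∧
    (∀ c c', c ≠ c' → ∃ u ∈ anc c, u ∈ anc c' ∧ τ c u ≠ τ c' u) ∧
    (∀ x, x ∉ U → ∀ u ∈ anc (loc x), side u x = τ (loc x) u)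

/-- BSU (medium, the longest row).  Proof.  Strong induction on `U.card`.  `U = ∅`: `V = Unit`, `T = ⊥`.
Otherwise `v ∈ U`, `UL = {j ∈ U | j ≠ v, side v j = true}`, `UR = {j ∈ U | j ≠ v, side v j = false}`, with data `L`, `R`.
`V = VL ⊕ VR`, adjacency: `inl a ~ inl b` iff `a ~ b` in `TL`, the same for `inr`, `inl a ~ inr b` iff `a = locL v` and
`b = locR v`.  `e i = (eL i).map inl` for `i ∈ UL`, `(eR i).map inr` for `i ∈ UR`, `e v = s(inl (locL v), inr (locR v))`.
`anc (inl c) = insert v (ancL c)`, `τ (inl c) u = if u = v then true else τL c u`; `inr`: with `false`.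
`loc x = if side v x then inl (locL x) else inr (locR x)`.
Connected: both parts are, and the new edge joins them.  Incidence: for `i ∈ UL` and `u = v`: `side v i = true`;
for `i = v` and `u ∈ ancL (locL v)`: the last property of `L` for `v ∉ UL`.  Separation: `j = v`: `u = v`;
`inl c` and `j ∈ UR`: `u = v`.  Cells `inl c`, `inr c'`: `u = v`. -/
def BSU_stmt : Prop := ∀ (ι : Type) [DecidableEq ι] (side : ι → ι → Bool) (U : Finset ι),
  Part ι side U

/-- JOI (short to medium).  Joining two connected graphs by an edge: connectivity and edges (help for BSU). -/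
def JOI_stmt : Prop := ∀ (V W : Type) (G : SimpleGraph V) (H : SimpleGraph W) (a : V) (b : W),
  G.Connected → H.Connected →
  ∃ K : SimpleGraph (V ⊕ W), K.Connected ∧
    K.edgeSet = (Sym2.map Sum.inl '' G.edgeSet) ∪ (Sym2.map Sum.inr '' H.edgeSet) ∪
      {s(Sum.inl a, Sum.inr b)}

/-- everything about the family and its tree of cells which is used below -/
def Setup {ι V : Type} (A B : ι → ℝ × ℝ) (T : SimpleGraph V) (e : ι → Sym2 V)
    (anc : V → Finset ι) (τ : V → ι → Bool) : Prop :=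
  T.IsTree ∧ Function.Injective e ∧ Set.range e = T.edgeSet ∧ (∀ i, A i ≠ B i) ∧
  (∀ i c, c ∈ e i → i ∈ anc c ∧ ∀ u ∈ anc c, u ≠ i →
    0 < sg (τ c u) * D (A u) (B u) (A i) ∧ 0 < sg (τ c u) * D (A u) (B u) (B i)) ∧
  (∀ c j, ∃ u ∈ anc c, u = j ∨
    (sg (τ c u) * D (A u) (B u) (A j) < 0 ∧ sg (τ c u) * D (A u) (B u) (B j) < 0)) ∧
  (∀ c c', c ≠ c' → ∃ u ∈ anc c, u ∈ anc c' ∧ τ c u ≠ τ c' u)

/-- SET (short).  Proof.  BSU with `side u j = decide (0 < D (A u) (B u) (A j))` and `U = Finset.univ`.  For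
`u ≠ j` the numbers `D (A u) (B u) (A j)`, `D (A u) (B u) (B j)` have the same sign, which is `sg (side u j)`.
`T.IsTree` by `SimpleGraph.isTree_iff_connected_and_card`: `e` is a bijection of `ι` with the edges. -/
def SET_stmt : Prop := ∀ (ι : Type) [Fintype ι] [DecidableEq ι] (A B : ι → ℝ × ℝ),
  (∀ i, A i ≠ B i) → (∀ i j, i ≠ j → 0 < D (A i) (B i) (A j) * D (A i) (B i) (B j)) →
  ∃ (V : Type) (_ : Fintype V) (T : SimpleGraph V) (e : ι → Sym2 V) (anc : V → Finset ι)
    (τ : V → ι → Bool), Fintype.card V = Fintype.card ι + 1 ∧ Setup A B T e anc τ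

/-! ### the path -/

/-- EAP (short).  Induction on `l`. -/
def EAP_stmt : Prop := ∀ (α : Type) (l m : List α) (t : α),
  edges (l ++ t :: m) = edges (l ++ [t]) ++ edges (t :: m)

/-- EIN (short).  `edges` and positions. -/
def EIN_stmt : Prop := ∀ (α : Type) (l : List α), (edges l).length = l.length - 1 ∧
  ∀ (i : ℕ) (h : i + 1 < l.length) (h' : i < (edges l).length),
    (edges l)[i] = (l[i]'(Nat.lt_of_succ_lt h), l[i + 1])

/-- TRU (short).  In a tree a path is determined by its ends; the edge `c c'` is a path. -/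
def TRU_stmt : Prop := ∀ (V : Type) (T : SimpleGraph V) (c c1 d : V) (h : T.Adj c c1)
  (p : T.Walk c1 d), T.IsAcyclic → (SimpleGraph.Walk.cons h p).IsPath → ∀ c' ∈ p.support,
  T.Adj c c' → c' = c1

/-- GLB (medium).  Proof.  Induction on `p`.  For a cell `c` let `I` be the set of all `i` with `c ∈ e i`
(a subset of `anc c`, so a Finset: `(anc c).filter`, classical); the hypothesis of ICA holds with `τ c`.
`nil`: if `x.1` is the only member of `I`, `w' = []`; otherwise ICA with any other `t ∈ I`.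
`cons h p`, `h : T.Adj c c1`: there is `t` with `e t = s(c, c1)`; `t ≠ x.1` (`c1 ∉ e x.1`).  ICA gives `w0`, `b`; the
induction hypothesis for `p` and `(t, b)` (`c1 ∈ e t`; `e t = s(c, c1)` and `c ∉ p.support`) gives `w1`;
the list is `x :: (w0 ++ (t, b) :: w1)`.  Different segments: if `i` is in `x :: w0` and in `(t, b) :: w1`, then
`i ≠ t`, `c ∈ e i` and `c' ∈ e i` for some `c' ∈ p.support`, `c' ≠ c`, so `e i = s(c, c')`, `T.Adj c c'`, `c' = c1` (TRU),
`i = t`.  Edges: EAP.  A pair of the first part (in the cell `c`) and a pair of the second part (in a cell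
`c' ∈ p.support`, `c' ≠ c`) have disjoint connecting edges by LMX with the `u` of the last clause of Setup,
`s = sg (τ c u)` (`sg (τ c' u) = - sg (τ c u)`); the only segment in both lists is `t`, it is the last one of
the first part and the first one of the second part (so `y = x'` if `y.1 = x'.1`). -/
def GLB_stmt : Prop := ∀ (ι V : Type) [DecidableEq ι] (A B : ι → ℝ × ℝ) (T : SimpleGraph V)
  (e : ι → Sym2 V) (anc : V → Finset ι) (τ : V → ι → Bool), Setup A B T e anc τ →
  ∀ (c d : V) (p : T.Walk c d), p.IsPath → ∀ x : ι × Bool, c ∈ e x.1 →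
  (∀ c' ∈ p.support, c' ≠ c → c' ∉ e x.1) →
  ∃ w : List (ι × Bool), ((x :: w).map Prod.fst).Nodup ∧
    (∀ i, i ∈ (x :: w).map Prod.fst ↔ ∃ c' ∈ p.support, c' ∈ e i) ∧
    (∀ f ∈ edges (x :: w), ∃ c' ∈ p.support, c' ∈ e f.1.1 ∧ c' ∈ e f.2.1) ∧ PD A B (x :: w)

/-- at least `k` edges of `T` meet some path of `T`; these edges form a caterpillar, and every
caterpillar in `T` arises as a part of such a set of edges -/
def HasCaterpillar {V : Type} (T : SimpleGraph V) (k : ℕ) : Prop :=
  ∃ (c d : V) (p : T.Walk c d), p.IsPath ∧ k ≤ {f | f ∈ T.edgeSet ∧ ∃ x ∈ p.support, x ∈ f}.ncard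

/-- PTH (short to medium).  Proof.  `p` as in HasCaterpillar.  Case `nil` at `c`: if no `i` has `c ∈ e i`, then `k = 0`, `w = []`;
otherwise GLB with any such `i`.  Case `cons h p`, `h : T.Adj c c1`: if some `i` has `c ∈ e i`, `c1 ∉ e i`: GLB for `cons h p` and
`(i, true)` (a `c'` of the support, `c' ≠ c`, with `c' ∈ e i` is a neighbour of `c`, so `c' = c1` by TRU).  Otherwise
GLB for `p` and `(t, true)`, `e t = s(c, c1)`: every edge which meets `c` is `e t` and meets `c1`.
The length of the list is the number of the `i` with `e i` meeting the path, which is the number of these edges. -/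
def PTH_stmt : Prop := ∀ (ι V : Type) [Fintype ι] [DecidableEq ι] (A B : ι → ℝ × ℝ)
  (T : SimpleGraph V) (e : ι → Sym2 V) (anc : V → Finset ι) (τ : V → ι → Bool) (k : ℕ),
  Setup A B T e anc τ → HasCaterpillar T k →
  ∃ w : List (ι × Bool), k ≤ w.length ∧ (w.map Prod.fst).Nodup ∧
    (∀ f ∈ edges w, ∃ c', c' ∈ e f.1.1 ∧ c' ∈ e f.2.1) ∧ PD A B w

/-- the polygonal path `v 0, v 1, ..., v m` is simple -/
def SimplePath (m : ℕ) (v : ℕ → ℝ × ℝ) : Prop :=
  (∀ i < m, v i ≠ v (i + 1)) ∧
  ∀ i j, i < j → j < m → ∀ x, x ∈ segment ℝ (v i) (v (i + 1)) → x ∈ segment ℝ (v j) (v (j + 1)) →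
    j = i + 1 ∧ x = v j

/-- there is an alternating path `v 0, ..., v (2k-1)` through `k` of the segments `A i, B i`, compatible with
all of them -/
def CompatiblePath {n : ℕ} (A B : Fin n → ℝ × ℝ) (k : ℕ) : Prop :=
  ∃ (s : Fin k → Fin n) (v : ℕ → ℝ × ℝ), Function.Injective s ∧
    (∀ i : Fin k, (v (2 * (i : ℕ)) = A (s i) ∧ v (2 * (i : ℕ) + 1) = B (s i)) ∨
      (v (2 * (i : ℕ)) = B (s i) ∧ v (2 * (i : ℕ) + 1) = A (s i))) ∧
    SimplePath (2 * k - 1) v ∧
    ∀ i, i + 1 < k → ∀ j,
      Disjoint (openSegment ℝ (v (2 * i + 1)) (v (2 * i + 2))) (segment ℝ (A j) (B j))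

/-- FNL (medium).  From the list to the path.
Proof.  Take the first `k` members of `w` (for `k = 0` everything is trivial); `s i = (w[i]).1`,
`v (2 i) = st w[i]`, `v (2 i + 1) = fn w[i]` (`v m` arbitrary for `m ≥ 2k`, e.g. by `getD`).  Compatible: hypothesis
`hc`.  Simple: two segments of the family are disjoint (`hd`); two connecting edges: PD and EIN; the connecting edge
`i` (from `fn w[i]` to `st w[i+1]`) and a segment `w[j]`: a common point `x` is not in the open connecting
edge (`hc`), so it is `fn w[i]` or `st w[i+1]` (`segment` = `openSegment` and the two ends,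
`insert_endpoints_openSegment`), a point of the segment `w[i].1` or `w[i+1].1`, so `j = i` or `j = i + 1` (`hd`), as claimed.
`v i ≠ v (i+1)`: `A ≠ B`, and different segments are disjoint. -/
def FNL_stmt : Prop := ∀ (n : ℕ) (A B : Fin n → ℝ × ℝ) (w : List (Fin n × Bool)) (k : ℕ),
  k ≤ w.length → (w.map Prod.fst).Nodup → (∀ i, A i ≠ B i) →
  (∀ i j, i ≠ j → Disjoint (segment ℝ (A i) (B i)) (segment ℝ (A j) (B j))) →
  (∀ f ∈ edges w, ∀ j, Disjoint (openSegment ℝ (fn A B f.1) (st A B f.2)) (segment ℝ (A j) (B j))) →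
  PD A B w → CompatiblePath A B k

end Pool.Agent.helper14.AV
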