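import Pool.Agent.helper14.AV.Spec

set_option autoImplicit false

namespace Pool.Agent.helper14.AV

/-- CVA (short).  Proof.  `F x = D a b x` is affine; if `F c * F d ≤ 0` then some `z ∈ segment c d` has `F z = 0`, so
`z = a + t (b - a)` (see SGN in Spec).  `z` is not in `segment a b`, so `t < 0` or `t > 1`.  If `t > 1`:
`b = a + (1/t) (z - a)` is in `segment a z`, inside the convex hull of `a, c, d`.  If `t < 0`: `a` is in
`segment b z` (`a = z + (-t/(1-t)) (b - z)`), inside the convex hull of `b, c, d`. -/
def CVA_stmt : Prop := ∀ (a b c d : ℝ × ℝ), a ≠ b → Disjoint (segment ℝ a b) (segment ℝ c d) →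
  D a b c * D a b d ≤ 0 →
  b ∈ convexHull ℝ ({a, c, d} : Set (ℝ × ℝ)) ∨ a ∈ convexHull ℝ ({b, c, d} : Set (ℝ × ℝ))

/-- CVS (short to medium).  Disjoint segments with ends in convex position: the line of one segment misses
the other ones.
Proof.  `A i ≠ B i` by `ConvexIndependent.injective`.  If the line of `i` met `segment (A j) (B j)`, `D (A i) (B i)`
would have a zero on it (it vanishes on the line), so the product of the values at `A j`, `B j` is `≤ 0`
(otherwise both have the same sign and `D` has no zero on the segment); CVA: `B i` is in the hull of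
`A i, A j, B j` or `A i` in the hull of `B i, A j, B j`; both contradict `ConvexIndependent` (the image of
`{(i, true), (j, true), (j, false)}`, and so on). -/
def CVS_stmt : Prop := ∀ (n : ℕ) (A B : Fin n → ℝ × ℝ),
  ConvexIndependent ℝ (fun x : Fin n × Bool => if x.2 then A x.1 else B x.1) →
  (∀ i j, i ≠ j → Disjoint (segment ℝ (A i) (B i)) (segment ℝ (A j) (B j))) →
  (∀ i, A i ≠ B i) ∧ ∀ i j, i ≠ j → Disjoint
      ((affineSpan ℝ {A i, B i} : AffineSubspace ℝ (ℝ × ℝ)) : Set (ℝ × ℝ))
      (segment ℝ (A j) (B j))

end Pool.Agent.helper14.AV
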