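import Pool.Agent.helper14.AV.Spec2

/-!
# Shortening the segments of a family in convex position does not destroy alternating paths

`P i, Q i` : ends of the long segments (convex position, pairwise disjoint), `A i, B i` : ends of the short
segments, `[A i, B i] ⊆ [P i, Q i]`, in the same direction.
-/

set_option autoImplicit false

namespace Pool.Agent.helper14.AV

/-- there is an alternating path `v 0, ..., v (2k-1)` through `k` of the segments `A i, B i` (among them) -/
def AltPath {n : ℕ} (A B : Fin n → ℝ × ℝ) (k : ℕ) : Prop :=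
  ∃ (s : Fin k → Fin n) (v : ℕ → ℝ × ℝ), Function.Injective s ∧
    (∀ i : Fin k, (v (2 * (i : ℕ)) = A (s i) ∧ v (2 * (i : ℕ) + 1) = B (s i)) ∨
      (v (2 * (i : ℕ)) = B (s i) ∧ v (2 * (i : ℕ) + 1) = A (s i))) ∧
    SimplePath (2 * k - 1) v

/-- the short segments lie on the long ones, with the same direction -/
def Short {ι : Type} (P Q A B : ι → ℝ × ℝ) : Prop :=
  ∀ i, ∃ α β : ℝ, 0 ≤ α ∧ α < β ∧ β ≤ 1 ∧ A i = P i + α • (Q i - P i) ∧ B i = P i + β • (Q i - P i)

/-- no line of a segment meets another one, in determinants -/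
def NSd {ι : Type} (P Q : ι → ℝ × ℝ) : Prop :=
  ∀ i j, i ≠ j → 0 < D (P i) (Q i) (P j) * D (P i) (Q i) (Q j)

/-- the segments `i` and `j` are on the same side of the line of `u` -/
def SS {ι : Type} (P Q : ι → ℝ × ℝ) (u i j : ι) : Prop :=
  0 < D (P u) (Q u) (P i) * D (P u) (Q u) (P j)

/-- SDD (short).  `c = β - α`.  Coordinates, `ring`. -/
def SDD_stmt : Prop := ∀ (ι : Type) (P Q A B : ι → ℝ × ℝ), Short P Q A B → ∀ u, ∃ c : ℝ, 0 < c ∧
  (∀ X, D (A u) (B u) X = c * D (P u) (Q u) X) ∧
  A u ∈ segment ℝ (P u) (Q u) ∧ B u ∈ segment ℝ (P u) (Q u)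

/-- COL (short).  Three collinear points: one is between the other two.  `x = y` is trivial; otherwise
`z = x + t (y - x)`; `t ≤ 0`, `0 ≤ t ≤ 1`, `1 ≤ t`. -/
def COL_stmt : Prop := ∀ (x y z : ℝ × ℝ), D x y z = 0 →
  x ∈ segment ℝ y z ∨ y ∈ segment ℝ x z ∨ z ∈ segment ℝ x y

/-- TRI (short to medium).  Three segments, each line has the other two segments strictly on one side: the
orientation of a triple of points, one of each segment, does not depend on the points.
Proof.  `D x y z ≠ 0` for all such triples: otherwise COL, say `x ∈ segment y z`; `sa * D a1 a2` is positive at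
`y` and `z` (a convex combination of the values at `b1, b2`, resp. `c1, c2`), so at `x`, but it is 0 on `segment a1 a2`.
Then `D x y` is affine and without zero on the segment from `z` to `z'` (part of `segment c1 c2`), so
`0 < D x y z * D x y z'`; in the same way replace `y` by `y'` and `x` by `x'`. -/
def TRI_stmt : Prop := ∀ (a1 a2 b1 b2 c1 c2 : ℝ × ℝ) (sa sb sc : ℝ),
  (0 < sa * D a1 a2 b1 ∧ 0 < sa * D a1 a2 b2 ∧ 0 < sa * D a1 a2 c1 ∧ 0 < sa * D a1 a2 c2) →
  (0 < sb * D b1 b2 a1 ∧ 0 < sb * D b1 b2 a2 ∧ 0 < sb * D b1 b2 c1 ∧ 0 < sb * D b1 b2 c2) →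
  (0 < sc * D c1 c2 a1 ∧ 0 < sc * D c1 c2 a2 ∧ 0 < sc * D c1 c2 b1 ∧ 0 < sc * D c1 c2 b2) →
  ∀ x x' y y' z z', x ∈ segment ℝ a1 a2 → x' ∈ segment ℝ a1 a2 → y ∈ segment ℝ b1 b2 →
    y' ∈ segment ℝ b1 b2 → z ∈ segment ℝ c1 c2 → z' ∈ segment ℝ c1 c2 → 0 < D x y z * D x' y' z'

/-- CRS (short).  First part: `D a b` is 0 on `segment a b` and has one sign on `segment c d`.  Second part:
`s = D a b c / (D a b c - D a b d)`, `t = D c d a / (D c d a - D c d b)`; `c + s (d - c) = a + t (b - a)`
(`D a b c - D a b d = D c d b - D c d a`, coordinates, `field_simp; ring`). -/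
def CRS_stmt : Prop := ∀ (a b c d : ℝ × ℝ),
  (0 < D a b c * D a b d → Disjoint (segment ℝ a b) (segment ℝ c d)) ∧
  (D a b c * D a b d < 0 → D c d a * D c d b < 0 → ¬ Disjoint (segment ℝ a b) (segment ℝ c d))

/-- TRF3 (short).  TRI for three segments of the family in the form used below: `a, a'` are any of the points
`P i, Q i, A i, B i`, and so on. -/
def TRG_stmt : Prop := ∀ (ι : Type) (P Q : ι → ℝ × ℝ), NSd P Q → ∀ i j l : ι, i ≠ j → i ≠ l → j ≠ l →
  SS P Q i j l → SS P Q j i l → SS P Q l i j → ∀ x x' y y' z z',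
    x ∈ segment ℝ (P i) (Q i) → x' ∈ segment ℝ (P i) (Q i) → y ∈ segment ℝ (P j) (Q j) →
    y' ∈ segment ℝ (P j) (Q j) → z ∈ segment ℝ (P l) (Q l) → z' ∈ segment ℝ (P l) (Q l) →
    0 < D x y z * D x' y' z'

/-- CVB (short).  Proof.  Otherwise CVA with `a, b := P u, Q u` and `c, d := a, b`: `Q u` is in the hull of `P u, a, b`, or
`P u` in the hull of `Q u, a, b`; this contradicts convex independence (`a`, `b` are values at `(i, _)`, `(j, _)`). -/
def CVB_stmt : Prop := ∀ (ι : Type) (P Q : ι → ℝ × ℝ),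
  ConvexIndependent ℝ (fun x : ι × Bool => if x.2 then P x.1 else Q x.1) →
  ∀ i j u : ι, i ≠ u → j ≠ u → ∀ bi bj : Bool,
  Disjoint (segment ℝ (if bi then P i else Q i) (if bj then P j else Q j)) (segment ℝ (P u) (Q u)) →
  0 < D (P u) (Q u) (if bi then P i else Q i) * D (P u) (Q u) (if bj then P j else Q j)

/-- DS4 (medium).  Two connecting edges between four different segments.
Proof.  Write `F u X = D (P u) (Q u) X`; it has the same sign at all points of the long segment `j ≠ u`, and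
`D (A u) (B u) X` has the same sign (SDD).  If `F x'.1` has different signs at `x.1` and `y'.1`: the edge `(x, y)` has one
strict sign (SS), the edge `(x', y')` the other sign or 0 (its first end is on the line of `x'.1`); disjoint.  In the same
way if `F y'.1` differs at `x.1` and `x'.1`, or `F x.1` at `x'.1` and `y.1`, or `F y.1` at `x'.1` and `x.1`.
Otherwise for each of the four segments the other three are on the same side, and TRG applies to all triples.
`a, b, c, d` = `fn x, st y, fn x', st y'` for `A, B`, the same with primes for `P, Q`: all the numbers `D a b c`, `D a b d`,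
`D c d a`, `D c d b` are not 0 and have the signs of the primed ones.  The primed edges are disjoint, so by CRS one of the
two primed products is not negative, so positive; the same for the unprimed one, and CRS (first part). -/
def DS4_stmt : Prop := ∀ (ι : Type) (P Q A B : ι → ℝ × ℝ), NSd P Q → Short P Q A B →
  ∀ x y x' y' : ι × Bool, x.1 ≠ y.1 → x'.1 ≠ y'.1 → x.1 ≠ x'.1 → x.1 ≠ y'.1 → y.1 ≠ x'.1 →
  y.1 ≠ y'.1 → SS P Q x'.1 x.1 y.1 → SS P Q y'.1 x.1 y.1 → SS P Q x.1 x'.1 y'.1 →
  SS P Q y.1 x'.1 y'.1 → Disjoint (Eg P Q (x, y)) (Eg P Q (x', y')) →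
  Disjoint (Eg A B (x, y)) (Eg A B (x', y'))

/-- DS3 (medium).  Two consecutive connecting edges.
Proof.  If `F y.1` (see DS4) has different signs at `x.1` and `z.1`: a common point has `F y.1 = 0`, so it is `st A B y`
on the first edge and `fn A B y` on the second one, but these are different.  Otherwise all three segments are mutually on one
side; `a, b, c, d = fn x, st y, fn y, st z`: `D a b d`, `D a c d` by TRG; `D a b c = D b c a` and `D b c d` have the sign of `F y.1`
or of its negative, according to `y.2`, for `A, B` as for `P, Q`.  `D c d a = D a c d`, `D c d b = D b c d`.  CRS as in DS4. -/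
def DS3_stmt : Prop := ∀ (ι : Type) (P Q A B : ι → ℝ × ℝ), NSd P Q → Short P Q A B →
  ∀ x y z : ι × Bool, x.1 ≠ y.1 → y.1 ≠ z.1 → x.1 ≠ z.1 → SS P Q z.1 x.1 y.1 → SS P Q x.1 y.1 z.1 →
  Disjoint (Eg P Q (x, y)) (Eg P Q (y, z)) → Disjoint (Eg A B (x, y)) (Eg A B (y, z))

/-- SG1 (short).  A connecting edge and a third segment on whose line both its segments are on the same side;
and a connecting edge and its own two segments. -/
def SG1_stmt : Prop := ∀ (ι : Type) (P Q A B : ι → ℝ × ℝ), NSd P Q → Short P Q A B →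
  (∀ (x y : ι × Bool) (u : ι), x.1 ≠ u → y.1 ≠ u → SS P Q u x.1 y.1 →
    Disjoint (Eg A B (x, y)) (segment ℝ (A u) (B u))) ∧
  (∀ (x y : ι × Bool), x.1 ≠ y.1 → ∀ z ∈ Eg A B (x, y),
    (z ∈ segment ℝ (A x.1) (B x.1) → z = fn A B x) ∧
    (z ∈ segment ℝ (A y.1) (B y.1) → z = st A B y))

/-- SPA (short to medium).  From the facts to a simple path: compare the edges `2i` (segment), `2i+1` (connecting
edge) pairwise. -/
def SPA_stmt : Prop := ∀ (ι : Type) (A B : ι → ℝ × ℝ) (x : ℕ → ι × Bool) (k : ℕ)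
  (v : ℕ → ℝ × ℝ), (∀ i < k, v (2 * i) = st A B (x i) ∧ v (2 * i + 1) = fn A B (x i)) →
  (∀ u, A u ≠ B u) →
  (∀ i j, i < j → j < k →
    Disjoint (segment ℝ (A (x i).1) (B (x i).1)) (segment ℝ (A (x j).1) (B (x j).1))) →
  (∀ i, i + 1 < k → ∀ j < k, j ≠ i → j ≠ i + 1 →
    Disjoint (Eg A B (x i, x (i + 1))) (segment ℝ (A (x j).1) (B (x j).1))) →
  (∀ i, i + 1 < k → ∀ z ∈ Eg A B (x i, x (i + 1)),
    (z ∈ segment ℝ (A (x i).1) (B (x i).1) → z = fn A B (x i)) ∧
    (z ∈ segment ℝ (A (x (i + 1)).1) (B (x (i + 1)).1) → z = st A B (x (i + 1)))) →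
  (∀ i j, i < j → j + 1 < k → Disjoint (Eg A B (x i, x (i + 1))) (Eg A B (x j, x (j + 1)))) →
  SimplePath (2 * k - 1) v

/-- SPB (short).  From a simple path to the facts. -/
def SPB_stmt : Prop := ∀ (ι : Type) (P Q : ι → ℝ × ℝ) (x : ℕ → ι × Bool) (k : ℕ)
  (v : ℕ → ℝ × ℝ), (∀ i < k, v (2 * i) = st P Q (x i) ∧ v (2 * i + 1) = fn P Q (x i)) →
  SimplePath (2 * k - 1) v →
  (∀ i, i + 1 < k → ∀ j < k, j ≠ i → j ≠ i + 1 →
    Disjoint (Eg P Q (x i, x (i + 1))) (segment ℝ (P (x j).1) (Q (x j).1))) ∧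
  (∀ i j, i < j → j + 1 < k → Disjoint (Eg P Q (x i, x (i + 1))) (Eg P Q (x j, x (j + 1))))

/-- TRS (medium).  Proof.  For `k = 0` everything is trivial.  `x i = (s i, b i)` for `i < k` (extended to `ℕ` arbitrarily)
with `v (2i) = st P Q (x i)`, `v (2i+1) = fn P Q (x i)`; new path `v' (2i) = st A B (x i)`, `v' (2i+1) = fn A B (x i)`.
`NSd P Q`: CVS and SGN.  SPB gives the facts for `P, Q`; for `j ≠ i, i+1`: CVB gives `0 < F (x j).1` at the two ends of
the edge, so `SS P Q (x j).1 (x i).1 (x (i+1)).1` (the sign on a segment is constant, NSd).  Then SG1, DS4 (`i + 1 < j`),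
DS3 (`j = i + 1`), SPA.
Compatible: for an unused `u` the closed edge `P, Q` is disjoint from `segment (P u) (Q u)` (open part: hypothesis, the ends
are on other segments), so CVB, SG1.  For `u = (x i).1`, `(x (i+1)).1`: SG1, and an end of a segment with different ends is not
in the open segment.  The short segments are disjoint as parts of the long ones. -/
def TRS_stmt : Prop := ∀ (n : ℕ) (P Q A B : Fin n → ℝ × ℝ),
  ConvexIndependent ℝ (fun x : Fin n × Bool => if x.2 then P x.1 else Q x.1) →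
  (∀ i j, i ≠ j → Disjoint (segment ℝ (P i) (Q i)) (segment ℝ (P j) (Q j))) →
  Short P Q A B → ∀ k : ℕ, (AltPath P Q k → AltPath A B k) ∧
    (CompatiblePath P Q k → CompatiblePath A B k)

/-- SWP (short).  Both notions do not change if `A i` and `B i` are exchanged for some `i`
(`segment_symm`). -/
def SWP_stmt : Prop := ∀ (n : ℕ) (A B : Fin n → ℝ × ℝ) (c : Fin n → Bool) (k : ℕ),
  (AltPath (fun i => if c i then A i else B i) (fun i => if c i then B i else A i) k →
    AltPath A B k) ∧
  (CompatiblePath (fun i => if c i then A i else B i) (fun i => if c i then B i else A i) k →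
    CompatiblePath A B k)

/-- PRO (short).  Proof.  `A i = P i + α (Q i - P i)`, `B i = P i + β (Q i - P i)` with `α ≠ β` in `[0, 1]`;
`c i = decide (α < β)`; TRS and SWP. -/
def PRO_stmt : Prop := ∀ (n : ℕ) (P Q A B : Fin n → ℝ × ℝ),
  ConvexIndependent ℝ (fun x : Fin n × Bool => if x.2 then P x.1 else Q x.1) →
  (∀ i j, i ≠ j → Disjoint (segment ℝ (P i) (Q i)) (segment ℝ (P j) (Q j))) →
  (∀ i, A i ≠ B i ∧ A i ∈ segment ℝ (P i) (Q i) ∧ B i ∈ segment ℝ (P i) (Q i)) →
  ∀ k : ℕ, (AltPath P Q k → AltPath A B k) ∧ (CompatiblePath P Q k → CompatiblePath A B k)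

end Pool.Agent.helper14.AV
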